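import Mathlib
import Pool.Agent.N759.UC.Finite
import Pool.Agent.H715R2.CountableValues
import Pool.Agent.H905R2.OppD
import Pool.Agent.Run7.h587.MorseHedlund

/-! # MP_77d073_nt: systems of linear forms with a repetitive code in one direction

Let `n ≥ 3` and let `a` be a positive diagonal `n × n` matrix of determinant one, one of whose
diagonal entries occurs with a multiplicity prime to `n`; if `n` is prime this is every `a ≠ 1`.
Let `L` be a system of `n` real linear forms with absolute determinant `δ` whose product `F` has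
absolute value at least `ν > 0` at the nonzero integer points. There is a constant
`C = C(n, δ, ν)` such that for all integers `m` there is `V(m) ∈ GL_n(ℤ)` for which the
coefficients of the forms `a_i ^ m L_i ∘ V(m)` are at most `C` in absolute value. The code of such
a family is the sequence of the matrices `V(m)⁻¹ V(m + 1)`, a sequence of finitely many symbols.

We show: for all `C, N` there are `M` and a finite set `S` of such systems, which all satisfy
Oppenheim's conclusion, with the following property. Let `L` be a system as above which is not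
equivalent to an element of `S` (under diagonal matrices of determinant `±1` and `GL_n(ℤ)`), and
let `V(m)`, `m₀ ≤ m ≤ m₀ + M`, be any piece of length `M` of a family for `L` with the constant `C`.
Its code has no period `q ≤ N`, and it contains at least `N + 1` different blocks of length `N`.

This holds for all counterexamples to Oppenheim's conjecture, with the same `M`, and
unconditionally for all systems with Oppenheim's conclusion outside finitely many classes.

This is a port: the theorem is due to helper587, first page `MP_edeaa2_an.DirectionalCodes`. -/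

set_option autoImplicit false

open Filter Topology Pool.Agent.Run7.h587

namespace Pool.Agent.Results.MP_77d073_nt.DirectionalCodes

/-- the product of the linear forms `L i` at an integer point -/
noncomputable def F {n : ℕ} (L : Fin n → Fin n → ℝ) (p : Fin n → ℤ) : ℝ :=
  ∏ i, ∑ j, L i j * (p j : ℝ)

/-- Oppenheim's conclusion: there is an irreducible RS-matrix whose invariant planes are the
hyperplanes `L i = 0`. -/
def HasMatrix {n : ℕ} (L : Fin n → Fin n → ℝ) : Prop :=
  ∃ A : Matrix (Fin n) (Fin n) ℤ,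
    A.det = 1 ∧
    Irreducible (A.charpoly.map (Int.castRingHom ℚ)) ∧
    (∀ z : ℂ, Polynomial.aeval z A.charpoly = 0 → z.im = 0) ∧
    ∀ i : Fin n, ∀ x : Fin n → ℝ, ∑ j, L i j * x j = 0 →
      ∑ j, L i j * ((A.map (Int.cast : ℤ → ℝ)).mulVec x) j = 0

/-- the systems with absolute determinant `δ` and product at least `ν` in absolute value at the
nonzero integer points -/
def System (n : ℕ) (δ ν : ℝ) : Set (Fin n → Fin n → ℝ) :=
  {L | |(Matrix.of L).det| = δ ∧ ∀ p : Fin n → ℤ, p ≠ 0 → ν ≤ |F L p|}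

/-- `L` is obtained from `L'` by a diagonal matrix of determinant `±1` and a unimodular integral
substitution -/
def Equivalent {n : ℕ} (L L' : Fin n → Fin n → ℝ) : Prop :=
  ∃ (c : Fin n → ℝ) (γ : Matrix (Fin n) (Fin n) ℤ), |∏ i, c i| = 1 ∧ |γ.det| = 1 ∧
    ∀ i j, L i j = c i * ∑ k, L' i k * (γ k j : ℝ)

/-- For `m₀ ≤ m ≤ m₀ + M` the matrix `V m` has determinant `±1`, and the coefficients of the forms
`a i ^ m * (L i ∘ V m)` are at most `C` in absolute value. -/
def Good {n : ℕ} (L : Fin n → Fin n → ℝ) (a : Fin n → ℝ) (C : ℝ)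
    (V : ℤ → Matrix (Fin n) (Fin n) ℤ) (m₀ : ℤ) (M : ℕ) : Prop :=
  ∀ m : ℤ, m₀ ≤ m → m ≤ m₀ + M → |(V m).det| = 1 ∧
    ∀ i k, |a i ^ m * ∑ j, L i j * (V m j k : ℝ)| ≤ C

/-- For `m₀ ≤ m ≤ m₀ + M` the matrix `V m` has determinant `±1`, and the entries of
`a ^ m g V(m)` are at most `C` in absolute value. -/
def GoodM {d : ℕ} (g : Matrix (Fin d) (Fin d) ℝ) (a : Fin d → ℝ) (C : ℝ)
    (V : ℤ → Matrix (Fin d) (Fin d) ℤ) (m₀ : ℤ) (M : ℕ) : Prop :=
  ∀ m : ℤ, m₀ ≤ m → m ≤ m₀ + M → |(V m).det| = 1 ∧ ∀ i k,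
    |(Matrix.diagonal (fun i => a i ^ m) * g * (V m).map (Int.cast : ℤ → ℝ)) i k| ≤ C

/-- the code -/
noncomputable def code {d : ℕ} (V : ℤ → Matrix (Fin d) (Fin d) ℤ) (m : ℤ) :
    Matrix (Fin d) (Fin d) ℤ :=
  (V m)⁻¹ * V (m + 1)

/-- the block of length `n` of the code at the position `m` -/
noncomputable def block {d : ℕ} (V : ℤ → Matrix (Fin d) (Fin d) ℤ) (n : ℕ) (m : ℤ) :
    Fin n → Matrix (Fin d) (Fin d) ℤ :=
  fun j => code V (m + (j : ℕ))

/-- there is a family for `g` and a window of side `M` in which the code has a period `q ≤ n` -/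
def BadM {d : ℕ} (a : Fin d → ℝ) (C : ℝ) (n : ℕ) (g : Matrix (Fin d) (Fin d) ℝ) (M : ℕ) : Prop :=
  ∃ V m₀, GoodM g a C V m₀ M ∧ ∃ q : ℕ, 0 < q ∧ q ≤ n ∧
    ∀ m : ℤ, m₀ ≤ m → m + q < m₀ + M → code V m = code V (m + q)

/-- sequences of bad matrices -/
theorem bad_seq {d : ℕ} (hd : 3 ≤ d) (a : Fin d → ℝ) (ha : ∀ i, 0 < a i)
    (ha1 : ∏ i, a i = 1) (hab : ∃ r : ℝ, Nat.Coprime (Nat.card {i // a i = r}) d)
    {δ ν : ℝ} (hδ : 0 < δ) (hν : 0 < ν) (C : ℝ) (n : ℕ)
    (g : ℕ → Matrix (Fin d) (Fin d) ℝ) (N : ℕ → ℕ) (hN : ∀ i, i ≤ N i)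
    (hg : ∀ i, |(g i).det| = δ) (hnu : ∀ i, H715R2.HasNu (g i) ν)
    (hbad : ∀ i, BadM a C n (g i) (N i)) :
    ∃ s : ℕ → ℕ, (∀ i, i ≤ s i) ∧ (∀ i, H715R2.PropInt (g (s i))) ∧
      ∀ i j, Pool.Agent.N759.UC.Eqv (g (s i)) (g (s j)) := by
  classical
  choose V m₀ hV q hq hqn hper using hbad
  obtain ⟨R, hR⟩ := H715R2.exists_bound (d := d) (by omega) δ ν hδ hν
  -- the two-dimensional diagonal group
  set τ : (Fin 2 → ℤ) → ℝ := fun z => (z 0 : ℝ) + Real.sqrt 2 * (z 1 : ℝ) with hτ
  have hτadd : ∀ z w, τ (z + w) = τ z + τ w := by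
    intro z w
    simp only [hτ, Pi.add_apply]
    push_cast
    ring
  have hτ0 : ∀ z : Fin 2 → ℤ, z ≠ 0 → τ z ≠ 0 := by
    intro z hz h0
    by_cases h1 : z 1 = 0
    · apply hz
      simp only [hτ, h1, Int.cast_zero, mul_zero, add_zero, Int.cast_eq_zero] at h0
      funext i
      fin_cases i
      · exact h0
      · exact h1
    · have h2 : (z 1 : ℝ) ≠ 0 := by exact_mod_cast h1
      have h3 : Real.sqrt 2 = ((-(z 0) : ℤ) : ℝ) / ((z 1 : ℤ) : ℝ) := by
        rw [eq_div_iff h2]
        simp only [hτ] at h0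
        push_cast
        linarith
      have h4 := irrational_sqrt_two
      rw [h3] at h4
      exact h4 ⟨((-(z 0) : ℤ) : ℚ) / ((z 1 : ℤ) : ℚ), by push_cast; ring⟩
  set D : (Fin 2 → ℤ) → Fin d → ℝ := fun z i => a i ^ τ z with hD
  have hD0 : ∀ z i, 0 < D z i := fun z i => Real.rpow_pos_of_pos (ha i) _
  have hDadd : ∀ z w i, D (z + w) i = D z i * D w i := by
    intro z w i
    simp only [hD]
    rw [hτadd, Real.rpow_add (ha i)]
  have hDprod : ∀ z, ∏ i, D z i = 1 := by
    intro z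
    simp only [hD]
    rw [Real.finsetProd_rpow _ _ (fun i _ => (ha i).le), ha1, Real.one_rpow]
  have hcop : ∀ z : Fin 2 → ℤ, z ≠ 0 →
      ∃ r : ℝ, Nat.Coprime (Finset.univ.filter fun i => D z i = r).card d := by
    intro z hz
    obtain ⟨r, hr⟩ := hab
    rw [Nat.card_eq_fintype_card, Fintype.card_subtype] at hr
    have hne : (Finset.univ.filter fun i => a i = r).Nonempty := by
      rw [← Finset.card_pos]
      rcases Nat.eq_zero_or_pos (Finset.univ.filter fun i => a i = r).card with h0 | h0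
      · rw [h0, Nat.coprime_zero_left] at hr
        omega
      · exact h0
    obtain ⟨i₀, hi₀⟩ := hne
    have hi₀' : a i₀ = r := (Finset.mem_filter.1 hi₀).2
    refine ⟨r ^ τ z, ?_⟩
    have : (Finset.univ.filter fun i => D z i = r ^ τ z) = Finset.univ.filter fun i => a i = r := by
      refine Finset.filter_congr fun i _ => ?_
      simp only [hD]
      constructor
      · intro h
        rw [← hi₀'] at h ⊢
        exact (Real.rpow_left_inj (ha i).le (ha i₀).le (hτ0 z hz)).1 h
      · intro h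
        rw [h]
    rw [this]
    exact hr
  -- the bases
  have hex : ∀ (i : ℕ) (z : Fin 2 → ℤ), ∃ u : (Matrix (Fin d) (Fin d) ℤ)ˣ,
      (∀ t k, |(Matrix.diagonal (D z) * g i * H715R2.zR (u : Matrix (Fin d) (Fin d) ℤ)) t k|
        ≤ max C R) ∧
      (z 1 = 0 → m₀ i ≤ z 0 → z 0 ≤ m₀ i + (N i : ℕ) → (u : Matrix (Fin d) (Fin d) ℤ) =
        V i (z 0)) := by
    intro i z
    by_cases h : z 1 = 0 ∧ m₀ i ≤ z 0 ∧ z 0 ≤ m₀ i + (N i : ℕ)
    · obtain ⟨h1, h2, h3⟩ := h
      have h4 := hV i (z 0) h2 h3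
      obtain ⟨u, hu⟩ := (Matrix.isUnit_iff_isUnit_det _).2 (Int.isUnit_iff_abs_eq.2 h4.1)
      refine ⟨u, fun t k => ?_, fun _ _ _ => hu⟩
      have h5 := h4.2 t k
      have h6 : (D z) = fun i => a i ^ (z 0) := by
        funext i
        simp only [hD, hτ, h1, Int.cast_zero, mul_zero, add_zero]
        exact Real.rpow_intCast _ _
      rw [h6, hu]
      exact h5.trans (le_max_left _ _)
    · obtain ⟨γ, hγ, hγR⟩ := hR (Matrix.diagonal (D z) * g i)
        (by rw [Matrix.det_mul, Matrix.det_diagonal, hDprod, one_mul]; exact hg i) (fun x hx => by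
          rw [H715R2.FF_diag_mul, hDprod, one_mul]
          exact hnu i x hx)
      obtain ⟨u, hu⟩ := (Matrix.isUnit_iff_isUnit_det _).2 hγ
      refine ⟨u, fun t k => ?_, fun h1 h2 h3 => absurd ⟨h1, h2, h3⟩ h⟩
      rw [hu]
      exact (hγR t k).trans (le_max_right _ _)
  choose V' hV' hV'2 using hex
  have hn0 : 0 < n := lt_of_lt_of_le (hq 0) (hqn 0)
  refine Pool.Agent.N759.UC.seq_main hd hδ hν D hD0 hDadd hDprod hcop (C := max C R)
    (S' := (n : ℤ)) g hg hnu V' (fun i z t k => hV' i z t k) (fun m => ?_)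
  refine ⟨m * n, Nat.le_mul_of_pos_right m hn0, ![m₀ (m * n), 0], ![(q (m * n) : ℤ), 0], ?_, ?_, ?_⟩
  · intro h0
    have h1 := congrFun h0 0
    have h2 := hq (m * n)
    simp at h1
    omega
  · intro i
    have h2 := hqn (m * n)
    fin_cases i
    · simp
      exact h2
    · simp
  · intro j hj
    set k := m * n with hk
    -- the group elements on the line
    set W : ℤ → (Matrix (Fin d) (Fin d) ℤ)ˣ := fun x => V' k ![x, 0] with hW
    have hWV : ∀ x : ℤ, m₀ k ≤ x → x ≤ m₀ k + (N k : ℕ) →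
        ((W x : (Matrix (Fin d) (Fin d) ℤ)ˣ) : Matrix (Fin d) (Fin d) ℤ) = V k x := by
      intro x h1 h2
      have := hV'2 k ![x, 0] (by simp) (by simpa using h1) (by simpa using h2)
      simpa using this
    have hcode : ∀ x : ℤ, m₀ k ≤ x → x + 1 ≤ m₀ k + (N k : ℕ) →
        (((W x)⁻¹ * W (x + 1) : (Matrix (Fin d) (Fin d) ℤ)ˣ) : Matrix (Fin d) (Fin d) ℤ)
          = code (V k) x := by
      intro x h1 h2
      unfold code
      rw [Units.val_mul, Matrix.coe_units_inv, hWV x h1 (by omega), hWV (x + 1) (by omega) h2]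
    have hpow := powers_of_period W (m₀ k) (N k) (q k) (fun x h1 h2 => by
      apply Units.ext
      rw [hcode x h1 (by omega), hcode (x + q k) (by omega) (by omega)]
      exact hper k x h1 h2) j (by
        have h1 : j * q k ≤ m * n := Nat.mul_le_mul hj (hqn k)
        exact h1.trans (hN k))
    have e1 : (![m₀ k, 0] + j • ![(q k : ℤ), 0] : Fin 2 → ℤ) = ![m₀ k + j * (q k : ℤ), 0] := by
      funext i
      fin_cases i <;> simp
    have e2 : (![m₀ k, 0] + ![(q k : ℤ), 0] : Fin 2 → ℤ) = ![m₀ k + (q k : ℤ), 0] := by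
      funext i
      fin_cases i <;> simp
    rw [e1, e2]
    exact hpow

theorem good_iff {n : ℕ} (L : Fin n → Fin n → ℝ) (a : Fin n → ℝ) (C : ℝ)
    (V : ℤ → Matrix (Fin n) (Fin n) ℤ) (m₀ : ℤ) (M : ℕ) :
    Good L a C V m₀ M ↔ GoodM (Matrix.of L) a C V m₀ M := by
  have h : ∀ (m : ℤ) (i k : Fin n),
      (Matrix.diagonal (fun i => a i ^ m) * Matrix.of L * (V m).map (Int.cast : ℤ → ℝ)) i k =
        a i ^ m * ∑ j, L i j * (V m j k : ℝ) := by
    intro m i k
    rw [Matrix.mul_assoc, Matrix.diagonal_mul, Matrix.mul_apply]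
    rfl
  unfold Good GoodM
  simp only [h]

/-- **Codes in one direction.** -/
theorem result (n : ℕ) (hn : 3 ≤ n) (a : Fin n → ℝ) (ha : ∀ i, 0 < a i) (ha1 : ∏ i, a i = 1)
    (hab : (n.Prime ∧ ∃ i, a i ≠ 1) ∨ ∃ r : ℝ, Nat.Coprime (Nat.card {i // a i = r}) n)
    (δ ν : ℝ) (hδ : 0 < δ) (hν : 0 < ν) :
    (∃ C : ℝ, ∀ L ∈ System n δ ν, ∃ V, ∀ (m₀ : ℤ) (M : ℕ), Good L a C V m₀ M) ∧
    ∀ (C : ℝ) (N : ℕ), ∃ (M : ℕ) (S : Set (Fin n → Fin n → ℝ)), S.Finite ∧
      (∀ L ∈ S, L ∈ System n δ ν ∧ HasMatrix L) ∧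
      ∀ L ∈ System n δ ν, (HasMatrix L ∧ ∃ L' ∈ S, Equivalent L L') ∨
        ∀ V m₀, Good L a C V m₀ M →
          (∀ q : ℕ, 0 < q → q ≤ N → ∃ m : ℤ, m₀ ≤ m ∧ m + q < m₀ + M ∧
            code V m ≠ code V (m + q)) ∧
          ((N + 1 : ℕ) : ℕ∞) ≤ {B | ∃ m : ℤ, m₀ ≤ m ∧ m + N ≤ m₀ + M ∧ B = block V N m}.encard := by
  classical
  have hmat : ∀ L ∈ System n δ ν, H715R2.PropInt (Matrix.of L) → HasMatrix L := by
    intro L hL hP
    have hdet : (Matrix.of L).det ≠ 0 := by
      intro h0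
      have h1 := hL.1
      rw [h0, abs_zero] at h1
      exact hδ.ne h1
    exact Pool.Agent.H905R2.Opp.opp_of_propInt (by omega)
      (Matrix.linearIndependent_rows_iff_isUnit.2
        ((Matrix.isUnit_iff_isUnit_det _).2 (isUnit_iff_ne_zero.2 hdet)))
      ⟨ν, hν, hL.2⟩ hP
  -- for prime `n` the second hypothesis follows from the first
  have hab' : ∃ r : ℝ, Nat.Coprime (Nat.card {i // a i = r}) n := by
    rcases hab with ⟨hp, i₀, hi₀⟩ | hab
    swap
    · exact hab
    classical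
    obtain ⟨i, t, hit⟩ : ∃ i t, a i ≠ a t := by
      by_contra hcon
      push Not at hcon
      have h2 : (a i₀) ^ n = 1 := by
        rw [← ha1, Finset.prod_congr rfl fun t _ => hcon t i₀, Finset.prod_const,
          Finset.card_univ, Fintype.card_fin]
      exact hi₀ ((pow_eq_one_iff_of_nonneg (ha i₀).le (by omega)).1 h2)
    refine ⟨a i, ?_⟩
    rw [Nat.card_eq_fintype_card, Fintype.card_subtype]
    have h1 : 0 < (Finset.univ.filter fun t => a t = a i).card :=
      Finset.card_pos.2 ⟨i, by simp⟩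
    have h2 : (Finset.univ.filter fun t => a t = a i).card < n := by
      have h3 : (Finset.univ.filter fun t => a t = a i) ⊂ Finset.univ := by
        refine ⟨Finset.subset_univ _, fun hsub => ?_⟩
        have h4 := hsub (Finset.mem_univ t)
        rw [Finset.mem_filter] at h4
        exact hit h4.2.symm
      have h5 := Finset.card_lt_card h3
      rwa [Finset.card_univ, Fintype.card_fin] at h5
    exact (Nat.coprime_of_lt_prime h1.ne' h2 hp).symm
  constructor
  · obtain ⟨R, hR⟩ := H715R2.exists_bound (d := n) (by omega) δ ν hδ hν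
    refine ⟨R, fun L hL => ?_⟩
    have hex : ∀ m : ℤ, ∃ V : Matrix (Fin n) (Fin n) ℤ, |V.det| = 1 ∧ ∀ i k,
        |(Matrix.diagonal (fun i => a i ^ m) * Matrix.of L * V.map (Int.cast : ℤ → ℝ)) i k|
          ≤ R := by
      intro m
      have hprod : ∏ i, (a i ^ m) = 1 := by
        rw [Finset.prod_zpow, ha1, one_zpow]
      obtain ⟨γ, hγ, hγR⟩ := hR (Matrix.diagonal (fun i => a i ^ m) * Matrix.of L)
        (by rw [Matrix.det_mul, Matrix.det_diagonal, hprod, one_mul]; exact hL.1) (fun x hx => by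
          rw [H715R2.FF_diag_mul, hprod, one_mul]
          exact hL.2 x hx)
      exact ⟨γ, Int.isUnit_iff_abs_eq.1 hγ, hγR⟩
    choose V hV hV2 using hex
    exact ⟨V, fun m₀ M => (good_iff L a R V m₀ M).2 fun m _ _ => ⟨hV m, hV2 m⟩⟩
  · intro C N
    obtain ⟨M, S, hS, hSm, hM⟩ := Pool.Agent.N759.UC.finite_classes n δ ν (BadM a C N)
      (fun g N' hN hg hnu hbad => bad_seq hn a ha ha1 hab' hδ hν C N g N' hN hg hnu hbad)
    refine ⟨M + 2 * N, S, hS, fun L hL => ?_, fun L hL => ?_⟩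
    · obtain ⟨h1, h2, h3⟩ := hSm L hL
      exact ⟨⟨h1, h2⟩, hmat L ⟨h1, h2⟩ h3⟩
    by_cases hbad : BadM a C N (Matrix.of L) M
    · left
      obtain ⟨h1, g', hg', c, γ, hc, hγ, hcγ⟩ := hM (Matrix.of L) hL.1 hL.2 hbad
      refine ⟨hmat L hL h1, g', hg', c, γ, hc, hγ, fun i j => ?_⟩
      have h2 := congrFun (congrFun hcγ i) j
      rw [Matrix.mul_assoc, Matrix.diagonal_mul, Matrix.mul_apply] at h2
      exact h2
    right
    intro V m₀ hV'
    have hV := (good_iff L a C V m₀ (M + 2 * N)).1 hV'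
    constructor
    · intro q hq hqn
      by_contra hcon
      push Not at hcon
      exact hbad ⟨V, m₀, fun m h1 h2 => hV m h1 (by push_cast; omega), q, hq, hqn,
        fun m h1 h2 => hcon m h1 (by push_cast; omega)⟩
    · by_contra hcon
      push Not at hcon
      have hset : {B | ∃ m : ℤ, m₀ ≤ m ∧ m + N ≤ m₀ + ((M + 2 * N : ℕ) : ℤ) ∧ B = block V N m}
          = blks (code V) m₀ (M + N) N := by
        ext B
        constructor
        · rintro ⟨m, h1, h2, rfl⟩
          exact ⟨m, ⟨h1, by push_cast at h2 ⊢; omega⟩, rfl⟩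
        · rintro ⟨m, ⟨h1, h2⟩, rfl⟩
          exact ⟨m, h1, by push_cast at h2 ⊢; omega, rfl⟩
      rw [hset] at hcon
      have hle : (blks (code V) m₀ (M + N) N).ncard ≤ N := by
        have h1 := (blks_finite (code V) m₀ (M + N) N).cast_ncard_eq
        rw [← h1] at hcon
        have h2 : (blks (code V) m₀ (M + N) N).ncard < N + 1 := by exact_mod_cast hcon
        omega
      obtain ⟨q, m, hq, hqn, hm, hm', hper⟩ := morse_hedlund (code V) m₀ (M + N) N (by omega) hle
      refine hbad ⟨V, m, fun t h1 h2 => hV t (by omega) (by push_cast; omega), q, hq, hqn,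
        fun t h1 h2 => hper t h1 (by push_cast; omega)⟩

end Pool.Agent.Results.MP_77d073_nt.DirectionalCodes
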