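import Mathlib
import Pool.Agent.Run7.h245.EI.Iso
import Pool.Agent.H905R2.OppD

/-! # MP_77d073_nt: an effective isolation theorem for the systems with Oppenheim's conclusion

Let `n ≥ 3` and let `M` be a system of `n` independent real linear forms with `n - 1` independent
automorphs: `exp (u_k i) * M_i = M_i ∘ γ_k` with integral `γ_k` of determinant `±1` and linearly
independent vectors `u_1, …, u_{n-1}` of `ℝ^n`, with coordinates of absolute value at most `R`
(`R ≥ 1`). These are the systems of invariant planes of irreducible RS-matrices, by Dirichlet's unit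
theorem. Suppose that the coefficients of `M` and those of the inverse matrix are bounded by `B`.
There is a constant `C`, depending on `n` and `B` only, such that the following holds.

(1) Let `L` be a system of linear forms with `|L_1(p) ⋯ L_n(p)| ≥ ν` for all `p ∈ ℤ^n ∖ {0}`. If for
some `a` with `∏ |a_i| = 1` and some `γ ∈ GL_n(ℤ)` the coefficients of the forms `a_i L_i ∘ γ` are
within `exp (- exp (C R² / ν))` of those of `M_i`, then `L` satisfies Oppenheim's conclusion: there
is an irreducible RS-matrix `A ∈ SL_n(ℤ)` with the invariant planes `L_i = 0`; these planes are the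
images under `γ` of the planes `M_i = 0`. So every counterexample to Oppenheim's conjecture with
`ν(L) ≥ ν` has its whole orbit outside the balls of this radius around all such `M`.

(2) More precisely, let the coefficients of `L` differ from those of `M` by at most `δ`, and let the
largest difference of the coefficients of `L` and of `(a_i M_i)` be at least `m > 0` for all `a`.
Then for every real `τ`, `|τ| ≤ B`, the product `L_1 ⋯ L_n` takes a value within
`C R² / log log (1 / δ)` of `τ` at a nonzero integer point of the box of size `1 / m`; in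
particular `ν(L) ≤ C R² / log log (1 / δ)`.

This is a port: the effective isolation theorem is due to helper245, first page
`MP_edeaa2_an.EffectiveIsolation`. New here is the conclusion in terms of RS-matrices. -/

set_option autoImplicit false

open Matrix

namespace Pool.Agent.Results.MP_77d073_nt.EffectiveIsolation

/-- the product of the linear forms `L i` at an integer point -/
noncomputable def F {n : ℕ} (L : Fin n → Fin n → ℝ) (p : Fin n → ℤ) : ℝ :=
  ∏ i, ∑ j, L i j * (p j : ℝ)

/-- `A` is an irreducible RS-matrix whose invariant planes are the hyperplanes `L i = 0`. -/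
def IsMatrix {n : ℕ} (L : Fin n → Fin n → ℝ) (A : Matrix (Fin n) (Fin n) ℤ) : Prop :=
  A.det = 1 ∧
  Irreducible (A.charpoly.map (Int.castRingHom ℚ)) ∧
  (∀ z : ℂ, Polynomial.aeval z A.charpoly = 0 → z.im = 0) ∧
  ∀ i : Fin n, ∀ x : Fin n → ℝ, ∑ j, L i j * x j = 0 →
    ∑ j, L i j * ((A.map (Int.cast : ℤ → ℝ)).mulVec x) j = 0

/-- `exp (v i) * M i = M i ∘ γ` for some integral `γ` of determinant `±1` -/
def Automorph {n : ℕ} (M : Fin n → Fin n → ℝ) (v : Fin n → ℝ) : Prop :=
  ∃ γ : Matrix (Fin n) (Fin n) ℤ, |γ.det| = 1 ∧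
    ∀ i k, ∑ j, M i j * (γ j k : ℝ) = Real.exp (v i) * M i k

/-- The coefficients of the forms `a i * (L i ∘ γ)` are within `ε` of those of `M i`. -/
def Near {n : ℕ} (L M : Fin n → Fin n → ℝ) (a : Fin n → ℝ) (γ : Matrix (Fin n) (Fin n) ℤ)
    (ε : ℝ) : Prop :=
  ∀ i k, |a i * ∑ j, L i j * (γ j k : ℝ) - M i k| ≤ ε

/-- stabilisers move with the system -/
theorem transport {n : ℕ} {L M : Fin n → Fin n → ℝ} {γ : Matrix (Fin n) (Fin n) ℤ}
    (hγ : IsUnit γ.det) {b : Fin n → ℝ} (h : Matrix.of L * H715R2.zR γ = diagonal b * Matrix.of M)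
    {c : Fin n → ℝ} {η : Matrix (Fin n) (Fin n) ℤ}
    (hη : Matrix.of M * H715R2.zR η = diagonal c * Matrix.of M) :
    Matrix.of L * H715R2.zR (γ * η * γ⁻¹) = diagonal c * Matrix.of L := by
  have h1 : H715R2.zR γ * H715R2.zR γ⁻¹ = 1 := H715R2.zR_inv hγ
  rw [H715R2.zR_mul, H715R2.zR_mul, ← Matrix.mul_assoc, ← Matrix.mul_assoc, h,
    Matrix.mul_assoc (diagonal b), hη, ← Matrix.mul_assoc (diagonal b), diagonal_mul_diagonal]
  have h2 : (diagonal fun i => b i * c i) = diagonal c * diagonal b := by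
    rw [diagonal_mul_diagonal]
    congr 1
    funext i
    ring
  rw [h2, Matrix.mul_assoc (diagonal c), ← h, Matrix.mul_assoc (diagonal c),
    Matrix.mul_assoc (Matrix.of L), h1, Matrix.mul_one]

/-- an automorph with distinct eigenvalues -/
theorem exists_injective {n : ℕ} (hn : 0 < n) {y : Matrix (Fin n) (Fin n) ℝ} (hy : y.det ≠ 0)
    {R : ℝ} (hR : 0 ≤ R) {u : Fin (n - 1) → Fin n → ℝ} (hu : Run7.h245.EI.Un y R u) :
    ∃ v ∈ Run7.h245.EI.LS y, Function.Injective v := by
  set T : ℝ := 2 * (n * R) + 1 with hT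
  have hn' : (n : ℝ) ≠ 0 := by exact_mod_cast hn.ne'
  set q : Fin n → ℝ := fun k => T * ((k : ℕ) : ℝ) - (∑ l : Fin n, T * ((l : ℕ) : ℝ)) / n with hq
  have hqs : ∑ k, q k = 0 := by
    rw [hq, Finset.sum_sub_distrib, Finset.sum_const, Finset.card_univ, Fintype.card_fin,
      nsmul_eq_mul, mul_div_cancel₀ _ hn', sub_self]
  obtain ⟨v, hv, hvq⟩ := Run7.h245.EI.round_u hy hn hR hu hqs
  refine ⟨v, hv, fun k l hkl => ?_⟩
  by_contra hne
  have hne' : ((k : ℕ) : ℤ) - ((l : ℕ) : ℤ) ≠ 0 := by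
    intro h0
    apply hne
    ext
    omega
  have h1 : 1 ≤ |((k : ℕ) : ℝ) - ((l : ℕ) : ℝ)| := by
    have h3 := Int.one_le_abs hne'
    exact_mod_cast h3
  have h2 : q k - q l = T * (((k : ℕ) : ℝ) - ((l : ℕ) : ℝ)) := by
    simp only [hq]
    ring
  have h3 : |q k - q l| ≤ 2 * (n * R) := by
    have e : q k - q l = -(v k - q k) + (v l - q l) := by rw [hkl]; ring
    rw [e]
    refine (abs_add_le _ _).trans ?_
    rw [abs_neg]
    linarith [hvq k, hvq l]
  have hT0 : 0 < T := by rw [hT]; positivity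
  rw [h2, abs_mul, abs_of_pos hT0] at h3
  have h4 : T * 1 ≤ T * |((k : ℕ) : ℝ) - ((l : ℕ) : ℝ)| := mul_le_mul_of_nonneg_left h1 hT0.le
  linarith

theorem result (n : ℕ) (hn : 3 ≤ n) (B : ℝ) (hB : 1 ≤ B) : ∃ C : ℝ, 1 ≤ C ∧
    ∀ (R : ℝ) (M : Fin n → Fin n → ℝ) (u : Fin (n - 1) → Fin n → ℝ), 1 ≤ R →
      LinearIndependent ℝ M → (∀ i k, |M i k| ≤ B) → (∀ i k, |(Matrix.of M)⁻¹ i k| ≤ B) →
      (∀ k, Automorph M (u k)) → (∀ k i, |u k i| ≤ R) → LinearIndependent ℝ u →
    (∀ (L : Fin n → Fin n → ℝ) (ν : ℝ), 0 < ν → ν ≤ 1 →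
      (∀ p : Fin n → ℤ, p ≠ 0 → ν ≤ |F L p|) →
      ∀ (a : Fin n → ℝ) (γ : Matrix (Fin n) (Fin n) ℤ), |∏ i, a i| = 1 → |γ.det| = 1 →
      Near L M a γ (Real.exp (-Real.exp (C * R ^ 2 / ν))) →
      (∃ A, IsMatrix L A) ∧
        ∃ b : Fin n → ℝ, (∀ i, b i ≠ 0) ∧ ∀ i k, ∑ j, L i j * (γ j k : ℝ) = b i * M i k) ∧
    (∀ (L : Fin n → Fin n → ℝ) (δ m : ℝ), 0 < δ → (∀ i k, |L i k - M i k| ≤ δ) →
      Real.exp (C * R ^ 2) ≤ Real.log (1 / δ) → 0 < m →
      (∀ a : Fin n → ℝ, ∃ i k, m ≤ |L i k - a i * M i k|) →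
      ∀ τ : ℝ, |τ| ≤ B → ∃ p : Fin n → ℤ, p ≠ 0 ∧ (∀ k, |(p k : ℝ)| ≤ 1 / m) ∧
        |F L p - τ| ≤ C * R ^ 2 / Real.log (Real.log (1 / δ))) := by
  obtain ⟨C, hC1, hC⟩ := Run7.h245.EI.main n hn B hB
  refine ⟨2 * C, by linarith, ?_⟩
  intro R M u hR hM hMB hMB' hu huR hind
  have hy : (Matrix.of M).det ≠ 0 := Pool.Agent.H905R2.Opp.det_ne hM
  have hn0 : 0 < n := by omega
  have hmul : ∀ (N : Fin n → Fin n → ℝ) (γ : Matrix (Fin n) (Fin n) ℤ) (i k : Fin n),
      (Matrix.of N * H715R2.zR γ) i k = ∑ j, N i j * (γ j k : ℝ) := fun N γ i k => rfl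
  have huLS : ∀ k, u k ∈ Run7.h245.EI.LS (Matrix.of M) := by
    intro k
    obtain ⟨γ, hγ, h⟩ := hu k
    refine ⟨γ, Int.isUnit_iff_abs_eq.2 hγ, ?_⟩
    ext i j
    rw [hmul, diagonal_mul]
    exact h i j
  have hUn : Run7.h245.EI.Un (Matrix.of M) R u := ⟨huLS, huR, hind⟩
  have hC0 : 0 < C := by linarith
  have hR2 : 1 ≤ R ^ 2 := one_le_pow₀ hR
  have hmain := hC R (Matrix.of M) u hR hy hMB hMB' hUn
  refine ⟨?_, ?_⟩
  · intro L ν hν hν1 hval a γ ha hγ' hclose
    have hγ : IsUnit γ.det := Int.isUnit_iff_abs_eq.2 hγ'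
    -- the isolation theorem
    obtain ⟨b, hb⟩ : ∃ b : Fin n → ℝ, Matrix.of L * H715R2.zR γ = diagonal b * Matrix.of M := by
      set h := diagonal a * Matrix.of L * γ.map (Int.cast : ℤ → ℝ) with hh
      have hclose' : ∀ i k, |h i k - Matrix.of M i k| ≤
          Real.exp (-Real.exp (2 * C * R ^ 2 / ν)) := by
        intro i k
        have e : h i k = a i * ∑ j, L i j * (γ j k : ℝ) := by
          rw [hh, Matrix.mul_assoc, diagonal_mul]
          rfl
        rw [e]
        exact hclose i k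
      have ha0 : ∀ i, a i ≠ 0 := by
        intro i h0
        have : ∏ i, a i = 0 := Finset.prod_eq_zero (Finset.mem_univ i) h0
        rw [this, abs_zero] at ha
        exact zero_ne_one ha
      by_cases hb : ∃ b : Fin n → ℝ, h = diagonal b * Matrix.of M
      · obtain ⟨b, hb⟩ := hb
        refine ⟨fun i => (a i)⁻¹ * b i, ?_⟩
        have h1 : diagonal (fun i => (a i)⁻¹) * diagonal a = (1 : Matrix (Fin n) (Fin n) ℝ) := by
          rw [diagonal_mul_diagonal]
          have : (fun i => (a i)⁻¹ * a i) = fun _ => (1 : ℝ) := by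
            funext i
            exact inv_mul_cancel₀ (ha0 i)
          rw [this, diagonal_one]
        have h2 : diagonal (fun i => (a i)⁻¹ * b i) =
            diagonal (fun i => (a i)⁻¹) * diagonal b := by
          rw [diagonal_mul_diagonal]
        have h3 : H715R2.zR γ = γ.map (Int.cast : ℤ → ℝ) := rfl
        rw [h2, Matrix.mul_assoc, ← hb, hh, Matrix.mul_assoc (diagonal a), ← Matrix.mul_assoc, h1,
          one_mul, h3]
      · exfalso
        obtain ⟨m, hm, hdist⟩ := Run7.h245.EI.dist_pos hy hB hMB hb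
        have hlog : Real.log (1 / Real.exp (-Real.exp (2 * C * R ^ 2 / ν))) =
            Real.exp (2 * C * R ^ 2 / ν) := by
          rw [one_div, ← Real.exp_neg, neg_neg, Real.log_exp]
        have hexp : Real.exp (C * R ^ 2) ≤
            Real.log (1 / Real.exp (-Real.exp (2 * C * R ^ 2 / ν))) := by
          rw [hlog]
          apply Real.exp_le_exp.2
          rw [le_div_iff₀ hν]
          nlinarith [mul_pos hC0 (by linarith : (0 : ℝ) < R ^ 2)]
        obtain ⟨p, hp0, -, hp⟩ := hmain h _ m (Real.exp_pos _) hclose' hexp hm hdist 0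
          (by rw [abs_zero]; linarith)
        rw [hlog, Real.log_exp, sub_zero] at hp
        have h3 : H715R2.FF h (H715R2.iR p) = (∏ i, a i) * F L (γ *ᵥ p) :=
          Run7.h245.EI.FF_move a γ p
        rw [h3, abs_mul, ha, one_mul] at hp
        have hne : γ *ᵥ p ≠ 0 := by
          intro h0
          apply hp0
          have h4 : γ⁻¹ *ᵥ (γ *ᵥ p) = p := by
            rw [mulVec_mulVec, nonsing_inv_mul γ hγ, one_mulVec]
          rw [← h4, h0, mulVec_zero]
        have h5 := hval _ hne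
        have h6 : C * R ^ 2 / (2 * C * R ^ 2 / ν) = ν / 2 := by
          have : R ^ 2 ≠ 0 := by positivity
          field_simp
        rw [h6] at hp
        linarith
    -- the factors do not vanish
    have hb0 : ∀ i, b i ≠ 0 := by
      intro i h0
      have h1 : ∀ k, ∑ j, L i j * (γ j k : ℝ) = 0 := by
        intro k
        rw [← hmul, hb, diagonal_mul, h0, zero_mul]
      set e : Fin n → ℤ := Pi.single ⟨0, hn0⟩ 1 with he
      have hne : γ *ᵥ e ≠ 0 := by
        intro h2
        have h4 : γ⁻¹ *ᵥ (γ *ᵥ e) = e := by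
          rw [mulVec_mulVec, nonsing_inv_mul γ hγ, one_mulVec]
        have h5 : e = 0 := by rw [← h4, h2, mulVec_zero]
        have h6 := congrFun h5 ⟨0, hn0⟩
        rw [he, Pi.single_eq_same] at h6
        exact one_ne_zero h6
      have h2 : F L (γ *ᵥ e) = 0 := by
        refine Finset.prod_eq_zero (Finset.mem_univ i) ?_
        have h3 : ∀ j, (((γ *ᵥ e) j : ℤ) : ℝ) = (γ j ⟨0, hn0⟩ : ℝ) := by
          intro j
          rw [he, Matrix.mulVec_single_one]
          rfl
        rw [Finset.sum_congr rfl fun j _ => by rw [h3 j]]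
        exact h1 _
      have h3 := hval _ hne
      rw [h2, abs_zero] at h3
      exact absurd hν (not_lt.2 h3)
    have hdetL : (Matrix.of L).det ≠ 0 := by
      intro h0
      have h1 := congrArg Matrix.det hb
      rw [det_mul, h0, zero_mul, det_mul, det_diagonal] at h1
      exact mul_ne_zero (Finset.prod_ne_zero_iff.2 fun i _ => hb0 i) hy h1.symm
    have hL : LinearIndependent ℝ L :=
      Matrix.linearIndependent_rows_iff_isUnit.2
        ((Matrix.isUnit_iff_isUnit_det (Matrix.of L)).2 (isUnit_iff_ne_zero.2 hdetL))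
    obtain ⟨v, hv, hvinj⟩ := exists_injective hn0 hy (by linarith) hUn
    obtain ⟨η, hη, hηM⟩ := hv
    have hstab := transport hγ hb hηM
    have hP : H715R2.PropInt (Matrix.of L) := by
      by_contra hP
      exact TH314.CSD.no_injective_stab hn hdetL hν (fun x hx => hval x hx) hP hstab
        (Real.exp_injective.comp hvinj)
    refine ⟨?_, b, hb0, fun i k => ?_⟩
    · obtain ⟨A, h1, h2, h3, h4⟩ :=
        Pool.Agent.H905R2.Opp.opp_of_propInt hn0 hL ⟨ν, hν, hval⟩ hP
      exact ⟨A, h1, h2, h3, h4⟩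
    · rw [← hmul, hb, diagonal_mul]
      rfl
  · intro L δ m hδ hL hlog hm hdist τ hτ
    have hCR : 0 < C * R ^ 2 := by positivity
    have hle : Real.exp (C * R ^ 2) ≤ Real.log (1 / δ) :=
      (Real.exp_le_exp.2 (by nlinarith)).trans hlog
    obtain ⟨p, hp0, hp1, hp⟩ := hmain (Matrix.of L) δ m hδ hL hle hm hdist τ hτ
    refine ⟨p, hp0, hp1, ?_⟩
    have hlog1 : 0 < Real.log (Real.log (1 / δ)) := by
      apply Real.log_pos
      refine lt_of_lt_of_le ?_ hle
      rw [← Real.exp_zero]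
      exact Real.exp_lt_exp.2 hCR
    calc |F L p - τ| = |H715R2.FF (Matrix.of L) (H715R2.iR p) - τ| := rfl
      _ ≤ C * R ^ 2 / Real.log (Real.log (1 / δ)) := hp
      _ ≤ 2 * C * R ^ 2 / Real.log (Real.log (1 / δ)) := by
          apply div_le_div_of_nonneg_right _ hlog1.le
          nlinarith

end Pool.Agent.Results.MP_77d073_nt.EffectiveIsolation
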