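import Mathlib
import Pool.Agent.Run7.h566.LW.Main

/-!
# Products of three linear forms: Littlewood's conjecture in multilinear families

Oppenheim's conjecture for `n = 3` implies Littlewood's conjecture: the product
`q (α q - p) (ζ q - r)` of three linear forms takes arbitrarily small absolute values at integer points
with `q ≥ 1`. For every family `ζ = a_0 ⋯ a_{n+1} θ + x_0(a) + ⋯ + x_{n+1}(a)` over the integer points of
a cube, where `x_j` is any real function of `a` which does not depend on `a_j`, the values less than `ε`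
are taken infinitely often, also inhomogeneously, for all but a power saving share of the members.
-/

set_option autoImplicit false

open Finset
open scoped Classical

namespace Pool.Agent.Results.MP_77d073_nt.FamiliesOfForms

/-- there are infinitely many integer points `(q, p, r)` with `q ≥ 1` at which
`q (α q - p) (ζ q - r - γ)` is less than `ε` in absolute value -/
def Small (ε α ζ γ : ℝ) : Prop :=
  {u : ℤ × ℤ × ℤ | 1 ≤ u.1 ∧ |(u.1 : ℝ) * (α * u.1 - u.2.1) * (ζ * u.1 - u.2.2 - γ)| < ε}.Infinite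

/-- the function `F` of `d`-tuples does not depend on the coordinate `j` -/
def Free {d : ℕ} (j : Fin d) (F : (Fin d → ℕ) → ℝ) : Prop :=
  ∀ a a' : Fin d → ℕ, (∀ i, i ≠ j → a i = a' i) → F a = F a'

/-- the points with the coordinates `0 ≤ a_i < M` -/
def box (d M : ℕ) : Finset (Fin d → ℕ) := Fintype.piFinset fun _ => range M

lemma small_of (ε α ζ γ : ℝ) (hε : 0 < ε) (h : Pool.Agent.TH869.LPS.Gd ε α ζ γ) : Small ε α ζ γ := by
  have h1 : {q : ℕ | 1 ≤ q ∧ (q : ℝ) * |q * α - round (q * α)| *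
      |(q * ζ - γ) - round (q * ζ - γ)| < ε}.Infinite := by
    have h2 := (h.and_eventually (Filter.eventually_ge_atTop 1))
    rw [Nat.frequently_atTop_iff_infinite] at h2
    exact h2.mono fun q hq => ⟨hq.2, hq.1⟩
  have hinj : Set.InjOn (fun q : ℕ => ((q : ℤ), round ((q : ℝ) * α), round ((q : ℝ) * ζ - γ)))
      {q : ℕ | 1 ≤ q ∧ (q : ℝ) * |q * α - round (q * α)| *
      |(q * ζ - γ) - round (q * ζ - γ)| < ε} := by
    intro q _ q' _ hqq
    have h3 : ((q : ℤ), round ((q : ℝ) * α), round ((q : ℝ) * ζ - γ)) =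
        ((q' : ℤ), round ((q' : ℝ) * α), round ((q' : ℝ) * ζ - γ)) := hqq
    have h4 : (q : ℤ) = (q' : ℤ) := congrArg Prod.fst h3
    exact Int.ofNat.inj h4
  refine (h1.image hinj).mono ?_
  rintro _ ⟨q, ⟨hq1, hq2⟩, rfl⟩
  have hq1' : (1 : ℤ) ≤ (q : ℤ) := by exact_mod_cast hq1
  refine ⟨hq1', ?_⟩
  have e1 : (((q : ℤ) : ℝ) * (α * ((q : ℤ) : ℝ) - ((round ((q : ℝ) * α) : ℤ) : ℝ)) *
      (ζ * ((q : ℤ) : ℝ) - ((round ((q : ℝ) * ζ - γ) : ℤ) : ℝ) - γ)) =
      (q : ℝ) * (q * α - round ((q : ℝ) * α)) * ((q * ζ - γ) - round ((q : ℝ) * ζ - γ)) := by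
    push_cast
    ring
  show |(((q : ℤ) : ℝ) * (α * ((q : ℤ) : ℝ) - ((round ((q : ℝ) * α) : ℤ) : ℝ)) *
      (ζ * ((q : ℤ) : ℝ) - ((round ((q : ℝ) * ζ - γ) : ℤ) : ℝ) - γ))| < ε
  rw [e1, abs_mul, abs_mul, Nat.abs_cast]
  exact hq2

/-- For every `n ≥ 0` there are `c, C > 0` such that the following holds for all `0 < ε ≤ 1/2`, all
real `α, θ` and all `M ≥ 1` such that no multiple `b θ`, `1 ≤ b ≤ M`, is in `ℤ + ℤ α`. Let
`x_0, …, x_{n+1}` be any real functions of tuples `a = (a_0, …, a_{n+1})`, `x_j` not depending on `a_j`.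
Then for all but at most `(C / ε) M ^ (n + 2 - c ε / log (1 / ε))` of the tuples of integers in `[0, M)`,
the number `ζ = a_0 ⋯ a_{n+1} θ + x_0(a) + ⋯ + x_{n+1}(a)` has the property that for EVERY real `γ` the
product of the three linear forms `q`, `α q - p`, `ζ q - r - γ` is less than `ε` in absolute value at
infinitely many integer points `(q, p, r)` with `q ≥ 1`. -/
theorem result (n : ℕ) : ∃ c C : ℝ, 0 < c ∧ 0 < C ∧ ∀ ε : ℝ, 0 < ε → ε ≤ 1 / 2 →
    ∀ (α θ : ℝ) (M : ℕ), 1 ≤ M →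
    (∀ b : ℕ, 1 ≤ b → b ≤ M → ∀ u v : ℤ, (b : ℝ) * θ ≠ u + v * α) →
    ∀ x : Fin (n + 2) → (Fin (n + 2) → ℕ) → ℝ, (∀ j, Free j (x j)) →
    (((box (n + 2) M).filter fun a =>
      ¬ ∀ γ : ℝ, Small ε α ((∏ i, (a i : ℝ)) * θ + ∑ j, x j a) γ).card : ℝ) ≤
      C / ε * (M : ℝ) ^ ((n : ℝ) + 2 - c * ε / Real.log (1 / ε)) := by
  obtain ⟨c, C, hc, hC, h⟩ := Pool.Agent.Run7.h566.LW.main n
  refine ⟨c, C, hc, hC, fun ε hε hε2 α θ M hM hθ x hx => ?_⟩
  refine le_trans (Nat.cast_le.2 (card_le_card fun a ha => ?_)) (h ε hε hε2 α θ M hM hθ x hx)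
  rw [mem_filter] at ha ⊢
  exact ⟨ha.1, fun hall => ha.2 fun γ => small_of ε α _ γ hε (hall γ)⟩

end Pool.Agent.Results.MP_77d073_nt.FamiliesOfForms
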