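import Mathlib
import Pool.Agent.Run7.h330.TP.Quad
import Pool.Agent.Run7.h330.TP.Slope
import Pool.Agent.H905R2.OppD

set_option autoImplicit false

/-!
# MP_77d073_nt: Oppenheim's conjecture for tensor products of binary lattices

Let `g_0, …, g_(k-1)` be real `2 × 2` matrices. The number `ξ` is a limit slope of `g_t` if some
limit of matrices `diag(a_0, a_1) g_t γ`, `a_0 a_1 = ±1`, `γ ∈ GL_2(ℤ)`, has a row proportional to
`(ξ, 1)`. Let `L` be the system of linear forms with the coefficient matrix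
`g_0 ⊗ ⋯ ⊗ g_(k-1) ⊗ G`, that is, its coefficients are the products of entries of the factors.

0. If `det g ≠ 0` and a row of `g` is proportional to `(α, 1)`, then `α` is a limit slope of `g`, and
so are all the limit points of the complete quotients of the continued fraction of `α` (`α`
irrational), and also `0` if the partial quotients of `α` are unbounded.

1. If the `2 ^ k` products of the limit slopes `ξ_t` are linearly dependent over `ℚ` (for instance
if two of the `ξ_t` are equal or equivalent under `GL_2(ℚ)`), then `ν(L) = 0`, for every real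
square matrix `G`.

2. Let `k ≥ 2`, let the `g_t` be invertible, and let the `ξ_t` lie in a real number field of degree
at most `2 ^ k` (for instance, let each be a quadratic irrational number). If `ν(L) > 0` for the
system `L` given by `g_0 ⊗ ⋯ ⊗ g_(k-1)`, then `L` satisfies Oppenheim's conclusion: there is an
irreducible RS-matrix whose invariant planes are the hyperplanes `L_i = 0`. Moreover, the slopes of
both rows of every `g_t` are algebraic of degree at most two.

So Oppenheim's conjecture is true for the systems `g_0 ⊗ ⋯ ⊗ g_(k-1)`, `k ≥ 2`, with such limit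
slopes.

This is a port: the theorem is due to helper330, first page
`MP_edeaa2_an.TensorProductsOfBinaryLattices`. New here is the conclusion in terms of RS-matrices.
-/

open Matrix Filter Topology Kronecker
open Pool.Agent.N759.CFr (cq pq)
open Pool.Agent.Run7.h330.TP

namespace Pool.Agent.Results.MP_77d073_nt.TensorProducts

/-- the product of the linear forms `L i` at an integer point -/
noncomputable def F {n : ℕ} (L : Fin n → Fin n → ℝ) (p : Fin n → ℤ) : ℝ :=
  ∏ i, ∑ j, L i j * (p j : ℝ)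

/-- Oppenheim's conclusion: there is an irreducible RS-matrix whose invariant planes are the
hyperplanes `L i = 0`. -/
def HasMatrix {n : ℕ} (L : Fin n → Fin n → ℝ) : Prop :=
  ∃ A : Matrix (Fin n) (Fin n) ℤ,
    A.det = 1 ∧
    Irreducible (A.charpoly.map (Int.castRingHom ℚ)) ∧
    (∀ z : ℂ, Polynomial.aeval z A.charpoly = 0 → z.im = 0) ∧
    ∀ i : Fin n, ∀ x : Fin n → ℝ, ∑ j, L i j * x j = 0 →
      ∑ j, L i j * ((A.map (Int.cast : ℤ → ℝ)).mulVec x) j = 0

/-- `L` is the system of the linear forms given by the rows of `g`, when the rows and columns of `g`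
are numbered by `e`. -/
def Given {ι : Type} {n : ℕ} (e : ι ≃ Fin n) (g : Matrix ι ι ℝ) (L : Fin n → Fin n → ℝ) : Prop :=
  ∀ i j, L (e i) (e j) = g i j

theorem given_value {ι : Type} [Fintype ι] {n : ℕ} {e : ι ≃ Fin n} {g : Matrix ι ι ℝ}
    {L : Fin n → Fin n → ℝ} (h : Given e g L) (x : ι → ℤ) :
    F L (fun j => x (e.symm j)) = ∏ i, ∑ j, g i j * (x j : ℝ) := by
  unfold F
  rw [← Equiv.prod_comp e]
  refine Finset.prod_congr rfl fun i _ => ?_
  rw [← Equiv.sum_comp e]
  refine Finset.sum_congr rfl fun j _ => ?_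
  have hj : (fun j => x (e.symm j)) (e j) = x j := by
    show x (e.symm (e j)) = x j
    rw [Equiv.symm_apply_apply]
  rw [h i j, hj]

theorem given_ne {ι : Type} {n : ℕ} (e : ι ≃ Fin n) {x : ι → ℤ} (hx : x ≠ 0) :
    (fun j => x (e.symm j)) ≠ 0 := by
  intro h0
  apply hx
  funext i
  have := congrFun h0 (e i)
  simpa using this

theorem given_propInt {ι : Type} [Fintype ι] {n : ℕ} {e : ι ≃ Fin n} {g : Matrix ι ι ℝ}
    {L : Fin n → Fin n → ℝ} (h : Given e g L) (hg : PropIntegral g) :
    H715R2.PropInt (Matrix.of L) := by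
  obtain ⟨c, hc, hint⟩ := hg
  refine ⟨c, hc, fun m => ?_⟩
  obtain ⟨z, hz⟩ := hint (m.mapDomain e.symm)
  refine ⟨z, ?_⟩
  rw [← hz]
  have hren : H715R2.polyF (Matrix.of L) = MvPolynomial.rename e
      (∏ i : ι, ∑ j : ι, MvPolynomial.C (g i j) * MvPolynomial.X j : MvPolynomial ι ℝ) := by
    unfold H715R2.polyF
    rw [map_prod, ← Equiv.prod_comp e]
    refine Finset.prod_congr rfl fun i _ => ?_
    rw [map_sum, ← Equiv.sum_comp e]
    refine Finset.sum_congr rfl fun j _ => ?_
    rw [map_mul, MvPolynomial.rename_C, MvPolynomial.rename_X, Matrix.of_apply, h i j]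
  have hm : m = (m.mapDomain e.symm).mapDomain e := by
    rw [← Finsupp.mapDomain_comp]
    have : (e ∘ e.symm : Fin n → Fin n) = id := by
      funext j
      simp
    rw [this, Finsupp.mapDomain_id]
  conv_lhs => rw [hren, ← map_smul, hm]
  rw [MvPolynomial.coeff_rename_mapDomain _ e.injective]

/-- **Oppenheim's conjecture for tensor products of binary lattices.** -/
theorem result :
    (∀ g : Matrix (Fin 2) (Fin 2) ℝ, g.det ≠ 0 → ∀ (i : Fin 2) (α : ℝ), g i 0 = α * g i 1 →
      LimitSlope g α ∧ (Irrational α → (∀ ξ : ℝ, MapClusterPt ξ atTop (cq α) → LimitSlope g ξ) ∧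
        ((∀ N : ℕ, ∃ k, N ≤ k ∧ (N : ℤ) ≤ pq α k) → LimitSlope g 0))) ∧
    (∀ (k m n : ℕ), 0 < m → ∀ (g : Fin k → Matrix (Fin 2) (Fin 2) ℝ) (ξ : Fin k → ℝ),
      (∀ t, LimitSlope (g t) (ξ t)) →
      (∃ y : (Fin k → Fin 2) → ℤ, y ≠ 0 ∧ ∑ j, prods ξ j * (y j : ℝ) = 0) →
      ∀ (G : Matrix (Fin m) (Fin m) ℝ) (e : (Fin k → Fin 2) × Fin m ≃ Fin n)
        (L : Fin n → Fin n → ℝ), Given e (tens g ⊗ₖ G) L →
        ∀ ε : ℝ, 0 < ε → ∃ p : Fin n → ℤ, p ≠ 0 ∧ |F L p| < ε) ∧
    (∀ k n : ℕ, 2 ≤ k → ∀ (g : Fin k → Matrix (Fin 2) (Fin 2) ℝ) (ξ : Fin k → ℝ),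
      (∀ t, (g t).det ≠ 0) → (∀ t, LimitSlope (g t) (ξ t)) →
      ∀ K : IntermediateField ℚ ℝ, FiniteDimensional ℚ K → Module.finrank ℚ K ≤ 2 ^ k →
      (∀ t, ξ t ∈ K) →
      ∀ (e : (Fin k → Fin 2) ≃ Fin n) (L : Fin n → Fin n → ℝ), Given e (tens g) L →
      (∃ c : ℝ, 0 < c ∧ ∀ p : Fin n → ℤ, p ≠ 0 → c ≤ |F L p|) →
      HasMatrix L ∧ ∀ t i, ∃ a b c : ℚ, (a ≠ 0 ∨ b ≠ 0 ∨ c ≠ 0) ∧
        (a : ℝ) * (g t i 0) ^ 2 + b * (g t i 0 * g t i 1) + c * (g t i 1) ^ 2 = 0) := by
  refine ⟨fun g hdet i α hg => slopes g hdet i α hg, ?_, ?_⟩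
  · rintro k m n hm g ξ hξ ⟨y, hy, h0⟩ G e L hL ε hε
    obtain ⟨x, hx, hval⟩ := relation_small hm hξ hy h0 G hε
    refine ⟨fun j => x (e.symm j), given_ne e hx, ?_⟩
    rw [given_value hL]
    exact hval
  · intro k n hk g ξ hg hξ K hfin hK hmem e L hL hc
    rcases tensor_alg hk hg hξ K hfin hK hmem with h1 | ⟨h2, -⟩
    · have hn : 0 < n := by
        have := (e (fun _ => 0)).pos
        omega
      have hLg : Matrix.of L = (tens g).submatrix e.symm e.symm := by
        ext i j
        have := hL (e.symm i) (e.symm j)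
        rw [Equiv.apply_symm_apply, Equiv.apply_symm_apply] at this
        rw [Matrix.of_apply, this, submatrix_apply]
      have hdet : (Matrix.of L).det ≠ 0 := by
        rw [hLg, det_submatrix_equiv_self]
        exact det_tens_ne hg
      have hind : LinearIndependent ℝ L :=
        Matrix.linearIndependent_rows_iff_isUnit.2
          ((Matrix.isUnit_iff_isUnit_det (Matrix.of L)).2 (isUnit_iff_ne_zero.2 hdet))
      exact ⟨Pool.Agent.H905R2.Opp.opp_of_propInt hn hind hc (given_propInt hL h1),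
        fun t i => quad_of_integral hg h1 t i⟩
    · exfalso
      obtain ⟨c, hc0, hc⟩ := hc
      obtain ⟨x, hx, hval⟩ := h2 c hc0
      have h3 := hc _ (given_ne e hx)
      rw [given_value hL] at h3
      exact absurd h3 (not_le.2 hval)

end Pool.Agent.Results.MP_77d073_nt.TensorProducts
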